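import Mathlib
import Pool.Agent.Helper43.UN.GoalsH

/-!
# Project UN, packet XH: the rest satisfies `HypW` with `S = 1`
-/

set_option autoImplicit false

namespace Pool.Agent.Helper93.UN

open Finset
open Pool.Agent.Helper18.SG (HypW)
open Pool.Agent.Helper43.UN

/-- the sum of the steps -/
theorem sum_step (n r : ℕ) (hr : r ≤ n) :
    ∑ y ∈ range n, (if n ≤ y + r then 1 else 0) = r := by
  rw [← Finset.sum_filter, Finset.sum_const, smul_eq_mul, mul_one]
  have h : (range n).filter (fun y => n ≤ y + r) = Ico (n - r) n := by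
    ext y
    simp only [mem_filter, mem_range, mem_Ico]
    omega
  rw [h, Nat.card_Ico]
  omega

theorem goalXH : GoalXH := by
  intro μ R Y N g exc m ℓ F hμ hR hY hgN hm hanti h27 hup hlin hF hF0 hFY htot hg
  -- first part
  have hmono : ∀ k, Y + k < R → F (Y + k) ≤ F Y ∧ ℓ (Y - 1) ≤ ℓ (Y + k) := by
    intro k
    induction k with
    | zero =>
      intro hk
      refine ⟨le_refl _, ?_⟩
      have h := hup (Y - 1) (by omega) (by omega)
      rw [Nat.sub_add_cancel hY] at h
      simpa using h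
    | succ k ih =>
      intro hk
      obtain ⟨i1, i2⟩ := ih (by omega)
      have h1 := (hF (Y + k) (by omega) (by omega)).1
      have h2 := hup (Y + k) (by omega) (by omega)
      exact ⟨h1.trans i1, i2.trans h2⟩
  have hFYl : F Y ≤ ℓ (Y - 1) := by
    have h1 := h27 (Y - 1) (by omega) (by omega)
    have h2 : μ * F Y ≤ μ * ℓ (Y - 1) := by nlinarith
    exact Nat.le_of_mul_le_mul_left h2 (by omega)
  have hle : ∀ y, Y ≤ y → y < R → F y ≤ ℓ y := by
    intro y hy1 hy2
    obtain ⟨k, rfl⟩ := Nat.exists_eq_add_of_le hy1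
    obtain ⟨i1, i2⟩ := hmono k hy2
    exact i1.trans (hFYl.trans i2)
  refine ⟨hle, ?_⟩
  have hn : R - Y = 4 * μ + 1 := by omega
  rw [hn]
  have key : ∀ y, y + 1 < 4 * μ + 1 →
      μ * (ℓ (Y + y) - F (Y + y) + exc / (4 * μ + 1) +
        (if 4 * μ + 1 ≤ y + exc % (4 * μ + 1) then 1 else 0)) + 27 * μ ^ 2 ≤
      μ * (ℓ (Y + (y + 1)) - F (Y + (y + 1)) + exc / (4 * μ + 1) +
        (if 4 * μ + 1 ≤ y + 1 + exc % (4 * μ + 1) then 1 else 0)) +
      (ℓ (Y + y) - F (Y + y) + exc / (4 * μ + 1) +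
        (if 4 * μ + 1 ≤ y + exc % (4 * μ + 1) then 1 else 0)) := by
    intro y hy
    obtain ⟨a, ha⟩ : ∃ a, ℓ (Y + y) = F (Y + y) + a :=
      Nat.exists_eq_add_of_le (hle (Y + y) (by omega) (by omega))
    obtain ⟨b, hb⟩ : ∃ b, ℓ (Y + (y + 1)) = F (Y + (y + 1)) + b :=
      Nat.exists_eq_add_of_le (hle (Y + (y + 1)) (by omega) (by omega))
    have h1 := hF (Y + y) (by omega) (by omega)
    have h2 := hup (Y + y) (by omega) (by omega)
    have h3 := h27 (Y + y) (by omega) (by omega)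
    rw [show Y + y + 1 = Y + (y + 1) from rfl] at h1 h2
    obtain ⟨f, hf⟩ : ∃ f, F (Y + y) = F (Y + (y + 1)) + f := Nat.exists_eq_add_of_le h1.1
    have h4 : F (Y + y) ≤ μ * f := by
      have h5 := h1.2
      rw [show F (Y + y) - F (Y + (y + 1)) = f by omega] at h5
      exact h5
    rw [show ℓ (Y + y) - F (Y + y) = a by omega,
      show ℓ (Y + (y + 1)) - F (Y + (y + 1)) = b by omega]
    have h5 : a + f ≤ b := by omega
    have h6 : μ * (a + f) ≤ μ * b := Nat.mul_le_mul_left _ h5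
    have h7 : (if 4 * μ + 1 ≤ y + exc % (4 * μ + 1) then 1 else 0) ≤
        (if 4 * μ + 1 ≤ y + 1 + exc % (4 * μ + 1) then 1 else 0) := by
      split_ifs <;> omega
    generalize (if 4 * μ + 1 ≤ y + exc % (4 * μ + 1) then 1 else 0) = s at h7 ⊢
    generalize (if 4 * μ + 1 ≤ y + 1 + exc % (4 * μ + 1) then 1 else 0) = s' at h7 ⊢
    generalize exc / (4 * μ + 1) = q
    have h8 : μ * s ≤ μ * s' := Nat.mul_le_mul_left _ h7
    have h9 : 27 * μ ^ 2 ≤ μ * f + a := by omega
    calc μ * (a + q + s) + 27 * μ ^ 2 ≤ μ * (a + q + s) + (μ * f + a) := by omega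
      _ = μ * (a + f) + μ * q + μ * s + a := by ring
      _ ≤ μ * b + μ * q + μ * s' + a := by omega
      _ = μ * (b + q + s') + a := by ring
      _ ≤ μ * (b + q + s') + (a + q + s) := by omega
  constructor
  · exact hμ
  · omega
  · intro c c' hcc
    exact hanti (g + c) (g + c') (by omega) (by omega)
  · intro c
    exact (hm (g + c) (by omega)).1
  · intro c
    exact (hm (g + c) (by omega)).2
  · intro y hy
    have h := key y hy
    have h2 : 3 * μ ^ 2 ≤ 27 * μ ^ 2 := by nlinarith [Nat.zero_le (μ ^ 2)]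
    omega
  · intro y hy _
    have h := key y hy
    omega
  · intro y hy hy2
    have e0 : F (Y + y) = 0 := hF0 _ (by omega) (by omega)
    have e1 : F (Y + (y + 1)) = 0 := hF0 _ (by omega) (by omega)
    have e2 : F (Y + (y + 2)) = 0 := hF0 _ (by omega) (by omega)
    have h := hlin (Y + y) (by omega) (by omega)
    rw [show Y + y + 2 = Y + (y + 2) from rfl, show Y + y + 1 = Y + (y + 1) from rfl] at h
    rw [e0, e1, e2]
    split_ifs <;> omega
  · have h1 : ∑ c ∈ range N, (m c + 1).choose 2 = ∑ c ∈ range g, (m c + 1).choose 2 +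
        ∑ c ∈ range (N - g), (m (g + c) + 1).choose 2 := by
      conv_lhs => rw [show N = g + (N - g) by omega]
      rw [Finset.sum_range_add]
    have h2 : ∑ z ∈ range R, ℓ z = ∑ z ∈ range Y, ℓ z +
        ∑ z ∈ range (4 * μ + 1), ℓ (Y + z) := by
      conv_lhs => rw [show R = Y + (4 * μ + 1) by omega]
      rw [Finset.sum_range_add]
    have h3 : ∑ z ∈ Ico Y R, F z = ∑ z ∈ range (4 * μ + 1), F (Y + z) := by
      rw [Finset.sum_Ico_eq_sum_range, hn]
    have h4 : ∑ z ∈ range (4 * μ + 1), ℓ (Y + z) = ∑ z ∈ range (4 * μ + 1), F (Y + z) +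
        ∑ z ∈ range (4 * μ + 1), (ℓ (Y + z) - F (Y + z)) := by
      rw [← Finset.sum_add_distrib]
      refine Finset.sum_congr rfl fun z hz => ?_
      have hz' := mem_range.1 hz
      have := hle (Y + z) (by omega) (by omega)
      omega
    have h5 : ∑ y ∈ range (4 * μ + 1), (ℓ (Y + y) - F (Y + y) + exc / (4 * μ + 1) +
        (if 4 * μ + 1 ≤ y + exc % (4 * μ + 1) then 1 else 0)) =
        ∑ z ∈ range (4 * μ + 1), (ℓ (Y + z) - F (Y + z)) +
          (4 * μ + 1) * (exc / (4 * μ + 1)) + exc % (4 * μ + 1) := by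
      rw [Finset.sum_add_distrib, Finset.sum_add_distrib, Finset.sum_const, card_range,
        smul_eq_mul, sum_step _ _ (Nat.mod_lt _ (by omega)).le]
    have h6 : (4 * μ + 1) * (exc / (4 * μ + 1)) + exc % (4 * μ + 1) = exc :=
      Nat.div_add_mod _ _
    rw [h5]
    rw [h1, h2, hg, h3] at htot
    omega

end Pool.Agent.Helper93.UN
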